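import Pool.Agent.H90.RG.Targets
import Pool.Agent.H14.RG.Targets
import Pool.Agent.H48.RG.Targets
import Pool.Agent.H86.RG.Targets

/-! Partial regularity of stationary harmonic maps (MP_2697e3_an), part G, second part: interface between
the parts A, B, C, D, E and the theorem. Page: LEAD_REG.md in the team store. -/

namespace Pool.Agent.H90.RG

open MeasureTheory Metric Set Filter Topology Pool.Agent.H87.SN
open Pool.Agent.H14.RG (IsClosedSubmanifold row)
open scoped ContDiff RealInnerProductSpace ENNReal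

noncomputable section

/-- Facts on the rows of the gradient. -/
def T_ROW : Prop := ∀ (n m : ℕ),
    (∀ (L : E n →L[ℝ] E m), ∑ j, ‖row L j‖ ^ 2 = nsq L ∧ ‖L‖ ≤ ∑ j, ‖row L j‖ ∧
      (∀ j (v : E n), ⟪row L j, v⟫ = (L v) j) ∧ (∀ j i, row L j i = (L (bv i)) j) ∧
      (∀ j, ‖row L j‖ ≤ n * ‖L‖)) ∧
    (∀ j, Continuous (fun L : E n →L[ℝ] E m => row L j)) ∧
    (∀ (G : E n → E n →L[ℝ] E m) (S : Set (E n)) (j : Fin m), MemLp G 2 (volume.restrict S) →
      MemLp (fun x => row (G x) j) 2 (volume.restrict S))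

/-- The system with the antisymmetric form, for stationary harmonic maps. -/
def T_SYH : Prop := ∀ (m k : ℕ) (N : Set (E m)) (A : E m → E m →L[ℝ] E m →L[ℝ] E m),
    IsClosedSubmanifold k N → IsSFF N A → ∃ K : ℝ, 0 ≤ K ∧
    ∀ (n : ℕ) (u : E n → E m) (G : E n → E n →L[ℝ] E m), StationaryHarmonic N A u G →
    ∃ Om : Fin m → Fin m → E n → E n, Pool.Agent.H48.RG.Sys K (ball (0 : E n) 2)
      (fun k x => u x k) (fun k x => row (G x) k) Om

/-- The right side of the equation. -/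
def ff {n m : ℕ} (A : E m → E m →L[ℝ] E m →L[ℝ] E m) (u : E n → E m)
    (G : E n → E n →L[ℝ] E m) (x : E n) : E m := ∑ i : Fin n, A (u x) (G x (bv i)) (G x (bv i))

/-- The equation in the form of part E, for stationary harmonic maps. -/
def T_SOH : Prop := ∀ (m k : ℕ) (N : Set (E m)) (A : E m → E m →L[ℝ] E m →L[ℝ] E m),
    IsClosedSubmanifold k N → IsSFF N A → ∃ K : ℝ, 0 ≤ K ∧
    ∀ (n : ℕ) (u : E n → E m) (G : E n → E n →L[ℝ] E m), StationaryHarmonic N A u G →
    ∀ ρ : ℝ, ρ ≤ 2 →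
    Pool.Agent.H86.RG.Sol (ball (0 : E n) ρ) u (fun k x => row (G x) k) (ff A u G) ∧
    Pool.Agent.H86.RG.LocF N (ball (0 : E n) ρ) u (fun k x => row (G x) k) (ff A u G) ∧
    ∀ᵐ x ∂(volume.restrict (ball (0 : E n) ρ)), ‖ff A u G x‖ ≤ K * ∑ a, ‖row (G x) a‖ ^ 2

/-- Regularity for small energy. -/
def T_EPS : Prop := ∀ (d m k : ℕ) (N : Set (E m)) (A : E m → E m →L[ℝ] E m →L[ℝ] E m),
    IsClosedSubmanifold k N → IsSFF N A → ∃ ε : ℝ, 0 < ε ∧ EpsReg (d + 2) m N A ε

/-- The theorem: the Hessian bound in all dimensions, from the bound for maps which are regular off a set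
of large density. -/
def T_THE : Prop := (∀ d : ℕ, 1 ≤ d → AllN d) →
    ∀ (n m k : ℕ) (N : Set (E m)) (A : E m → E m →L[ℝ] E m →L[ℝ] E m), 1 ≤ n →
    IsClosedSubmanifold k N → IsSFF N A → Q1 n m N A

end

end Pool.Agent.H90.RG
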