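import Pool.Agent.H90.RG.Thm
import Pool.Agent.H87.AN.Done

/-! The Hessian bound for stationary harmonic maps (MP_2697e3_an): the theorem without hypotheses. -/

namespace Pool.Agent.H90.RG

open MeasureTheory Metric Set Filter Topology Pool.Agent.H87.SN
open Pool.Agent.H14.RG (IsClosedSubmanifold)
open scoped ContDiff RealInnerProductSpace ENNReal

/-- The result. -/
theorem res (n k m : ℕ) (hn : 1 ≤ n) (N : Set (E m)) (hN : IsClosedSubmanifold k N) :
    (∃ A : E m → Bil m, IsSecond N A) ∧ ∀ C : ℝ,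
    ∃ δ : ℝ, 0 < δ ∧ ∀ (A : E m → Bil m) (u : E n → E m) (G : E n → Lin n m), IsSecond N A →
      StatHarm N A u G → energy G ≤ C → ∃ H, IsHessian u H ∧ hessL1 H ≤ ENNReal.ofReal δ :=
  res_of Pool.Agent.H87.AN.f_ALL n k m hn N hN

end Pool.Agent.H90.RG
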