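import Pool.Agent.H90.RG.Targets2
import Pool.Agent.H1.RG.CNA
import Pool.Agent.H63.RG.FCNF
import Pool.Agent.H51.RG.CNM
import Pool.Agent.H67.RG.FCNT
import Pool.Agent.H86.RGF.DIM
import Pool.Agent.H67.RG.FDML
import Pool.Agent.H75.RG.FDUE
import Pool.Agent.H7.REG.DUH
import Pool.Agent.H10.RG.DUM
import Pool.Agent.H35.RG.FDUS
import Pool.Agent.H75.RG.FDUW
import Pool.Agent.H45.RG.FLTG
import Pool.Agent.H60.RG.EPS
import Pool.Agent.H42.RG.FN3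
import Pool.Agent.H66.RG.GFNA
import Pool.Agent.H21.RG.GLU
import Pool.Agent.H73.RG.MNS
import Pool.Agent.H40.RG.GPRG
import Pool.Agent.H66.RG.GROW
import Pool.Agent.H21.RG.SHE
import Pool.Agent.H36.RG.SOH
import Pool.Agent.H89.RG.GSYH
import Pool.Agent.H16.RG.THE
import Pool.Agent.H97.RG.ZCV
import Pool.Agent.H45.RG.GZHB
import Pool.Agent.H86.RGF.ZSH

/-! Partial regularity of stationary harmonic maps (MP_2697e3_an), parts F and G: assembly of the rows. -/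

namespace Pool.Agent.H90.RG

open Pool.Agent.H87.SN

theorem o_CNA : T_CNA := Pool.Agent.H1.RG.pf_CNA

theorem o_CNM : T_CNM := Pool.Agent.H51.RG.CNM.pf_CNM o_CNA

theorem o_CNF : T_CNF := Pool.Agent.H63.RG.pf_CNF o_CNA o_CNM

theorem o_CNT : T_CNT := Pool.Agent.H67.RG.pf_CNT o_CNA

theorem o_DML : T_DML := Pool.Agent.H67.RG.pf_DML o_CNA o_CNM o_CNF

theorem o_DUM : T_DUM :=
  Pool.Agent.H10.RG.pf_DUM o_DML (Pool.Agent.H75.RG.pf_DUW o_CNA o_CNF o_CNT o_DML)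
    (Pool.Agent.H75.RG.pf_DUE o_CNA o_CNF o_CNT o_DML)
    (Pool.Agent.H35.RG.pf_DUS o_CNA o_CNF o_CNT o_DML)

theorem o_ZCV : T_ZCV := Pool.Agent.H97.RG.pf_ZCV

theorem o_ZSH : T_ZSH := Pool.Agent.H86.RGF.pf_ZSH o_ZCV

theorem o_DIM : T_DIM :=
  Pool.Agent.H86.RGF.pf_DIM o_DUM o_DML o_ZSH (Pool.Agent.H45.RG.pf_ZHB o_ZCV)
    (Pool.Agent.H7.REG.pf_DUH o_CNA o_CNF o_DML) Pool.Agent.H45.RG.pf_LTG

theorem o_PRG : T_PRG := Pool.Agent.H40.RG.pf_PRG o_ZSH Pool.Agent.H21.RG.pf_GLU o_ZCV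

theorem o_FNA : T_FNA :=
  Pool.Agent.H66.RG.pf_FNA o_DIM (Pool.Agent.H42.RG.pf_FN3 o_PRG Pool.Agent.H21.RG.pf_SHE)

/-- The output of the parts F and G: the Hessian bound in all dimensions, from the outputs of the other
parts. -/
theorem o_THE (hOMG : Pool.Agent.H14.RG.T_OMG) (hSFS : Pool.Agent.H14.RG.T_SFS)
    (hTNG : Pool.Agent.H14.RG.T_TNG) (hITE : Pool.Agent.H48.RG.T_ITE)
    (hSRS : Pool.Agent.H48.RG.T_SRS) (hE : Pool.Agent.H86.RG.T_E)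
    (hMUF : Pool.Agent.H22.AN.T_MUF) (hMNT : Pool.Agent.H22.AN.T_MNT)
    (hST1 : Pool.Agent.H87.SN.T_ST1) : T_THE :=
  Pool.Agent.H16.RG.pf_THE
    (Pool.Agent.H60.RG.pf_EPS Pool.Agent.H66.RG.pf_ROW
      (Pool.Agent.H89.RG.pf_SYH Pool.Agent.H66.RG.pf_ROW hOMG)
      (Pool.Agent.H36.RG.pf_SOH Pool.Agent.H66.RG.pf_ROW hSFS hTNG)
      (Pool.Agent.H73.RG.pf_MNS hMUF hMNT) hST1 hITE hSRS hE) o_FNA

end Pool.Agent.H90.RG
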