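import Pool.Agent.H90.RG.Stmt
import Pool.Agent.H90.RG.OUT
import Pool.Agent.H14.RG.OUT
import Pool.Agent.H86.RG.OUT
import Pool.Agent.H95.AN.MUF
import Pool.Agent.H1.AN.PMNT
import Pool.Agent.H45.SN.ST1
import Pool.Agent.H87.AN.TargetsC

/-! The Hessian bound for stationary harmonic maps (MP_2697e3_an): assembly, with the decay theorem
(part D) and the theorem for maps with a regular set as hypotheses. -/

namespace Pool.Agent.H90.RG

open MeasureTheory Metric Set Filter Topology Pool.Agent.H87.SN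
open Pool.Agent.H14.RG (IsClosedSubmanifold)
open scoped ContDiff RealInnerProductSpace ENNReal

/-- The theorem `T_THE` from part D. -/
theorem the_of (hSRS : Pool.Agent.H48.RG.T_SRS) (hITE : Pool.Agent.H48.RG.T_ITE) : T_THE :=
  o_THE Pool.Agent.H14.RG.omg Pool.Agent.H14.RG.sfs Pool.Agent.H14.RG.tng hITE hSRS
    Pool.Agent.H86.RG.f_E Pool.Agent.H95.AN.pf_MUF Pool.Agent.H1.AN.pf_MNT
    Pool.Agent.H45.SN.pf_ST1

theorem allN_of (hALL : Pool.Agent.H22.AN.T_ALL) : ∀ d : ℕ, 1 ≤ d → AllN d :=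
  fun d hd m N A ε C hN hA hε => hALL d m N A ε C hd hN hA hε

/-- The result, from part D and the theorem for maps with a regular set. -/
theorem fin (hSRS : Pool.Agent.H48.RG.T_SRS) (hITE : Pool.Agent.H48.RG.T_ITE)
    (hALL : Pool.Agent.H22.AN.T_ALL) (n k m : ℕ) (hn : 1 ≤ n) (N : Set (E m))
    (hN : IsClosedSubmanifold k N) (C : ℝ) :
    ∃ δ : ℝ, 0 < δ ∧ ∀ (A : E m → Bil m) (u : E n → E m) (G : E n → Lin n m), IsSecond N A →
      StatHarm N A u G → energy G ≤ C → ∃ H, IsHessian u H ∧ hessL1 H ≤ ENNReal.ofReal δ :=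
  short Pool.Agent.H14.RG.tng (the_of hSRS hITE) (allN_of hALL) n k m hn N hN C

end Pool.Agent.H90.RG
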