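import Pool.Agent.H87.SN.Stmt
import Pool.Agent.H14.RG.Targets
import Pool.Agent.H90.RG.Targets2

/-! The Hessian bound for stationary harmonic maps (MP_2697e3_an): short forms of the definitions, used in
the statement of the result, and the passage from the targets to the result. -/

namespace Pool.Agent.H90.RG

open MeasureTheory Metric Set Filter Topology Pool.Agent.H87.SN
open Pool.Agent.H14.RG (IsClosedSubmanifold)
open scoped ContDiff RealInnerProductSpace ENNReal

noncomputable section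

/-- The second derivatives of `u` on the unit ball, in the sense of distributions, are the integrable
functions `H i j`. -/
def IsHessian {n m : ℕ} (u : E n → E m) (H : Fin n → Fin n → E n → E m) : Prop :=
  (∀ i j, IntegrableOn (H i j) (ball 0 1)) ∧
  ∀ (i j : Fin n) (φ : E n → ℝ), ContDiff ℝ ∞ φ → HasCompactSupport φ → tsupport φ ⊆ ball 0 1 →
    ∫ x, pdr (fun y => pdr φ y (bv i)) x (bv j) • u x = ∫ x, φ x • H i j x

/-- The integral of the Euclidean norm of `H` over the unit ball. -/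
def hessL1 {n m : ℕ} (H : Fin n → Fin n → E n → E m) : ℝ≥0∞ :=
  ∫⁻ x in ball (0 : E n) 1, ENNReal.ofReal (Real.sqrt (∑ i, ∑ j, ‖H i j x‖ ^ 2))

/-- The second fundamental form is unique on tangent vectors. -/
theorem sff_unique {m : ℕ} {N : Set (E m)} {A A' : E m → E m →L[ℝ] E m →L[ℝ] E m}
    (h : IsSFF N A) (h' : IsSFF N A') {q v : E m} (hq : q ∈ N) (hv : IsTangent N q v) :
    A q v v = A' q v v := by
  obtain ⟨γ, h1, h2, h3, h4⟩ := hv
  have hv : IsTangent N q v := ⟨γ, h1, h2, h3, h4⟩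
  have hn : ∀ τ : E m, IsTangent N (γ 0) τ → ⟪A q v v - A' q v v, τ⟫ = 0 := by
    intro τ hτ
    rw [h3] at hτ
    rw [inner_sub_left, h.normal q hq v v τ hv hv hτ, h'.normal q hq v v τ hv hv hτ, sub_zero]
  have e1 := h.curve γ h1 h2 _ hn
  have e2 := h'.curve γ h1 h2 _ hn
  rw [h3, h4] at e1 e2
  have e3 : ⟪A q v v - A' q v v, A q v v - A' q v v⟫ = 0 := by
    have e4 : A q v v - A' q v v = (deriv (deriv γ) 0 + A q v v) - (deriv (deriv γ) 0 + A' q v v) := by
      abel
    conv_lhs =>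
      rw [show ⟪A q v v - A' q v v, A q v v - A' q v v⟫ =
        ⟪(deriv (deriv γ) 0 + A q v v) - (deriv (deriv γ) 0 + A' q v v), A q v v - A' q v v⟫ from by
          rw [← e4]]
    rw [inner_sub_left, e1, e2, sub_zero]
  exact sub_eq_zero.1 (inner_self_eq_zero.1 e3)

/-- The equation does not depend on the choice of the second fundamental form off tangent vectors. -/
theorem change_sff (hT : Pool.Agent.H14.RG.T_TNG) {n m k : ℕ} {N : Set (E m)}
    {A A' : E m → E m →L[ℝ] E m →L[ℝ] E m} (hN : IsClosedSubmanifold k N)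
    (h : IsSFF N A) (h' : IsSFF N A') {u : E n → E m} {G : E n → E n →L[ℝ] E m}
    (hu : StationaryHarmonic N A u G) : StationaryHarmonic N A' u G := by
  refine ⟨hu.w12, hu.mem, fun φ hφ => ?_, hu.stationary⟩
  rw [hu.harmonic φ hφ]
  have h1 := hT n m k N u G hN hu.w12 hu.mem
  have h2 : ∀ᵐ x ∂(volume.restrict (ball (0 : E n) 2)),
      φ x • ∑ i : Fin n, A (u x) (G x (bv i)) (G x (bv i)) =
        φ x • ∑ i : Fin n, A' (u x) (G x (bv i)) (G x (bv i)) := by
    filter_upwards [h1, hu.mem] with x hx hm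
    congr 1
    exact Finset.sum_congr rfl fun i _ => sff_unique h h' hm (hx (bv i))
  rw [ae_restrict_iff' measurableSet_ball] at h2
  refine integral_congr_ae ?_
  filter_upwards [h2] with x hx
  by_cases hxb : x ∈ ball (0 : E n) 2
  · exact hx hxb
  · have h3 : φ x = 0 := by
      by_contra h4
      exact hxb (hφ.2.2 (subset_tsupport φ h4))
    simp only [h3, zero_smul]

/-- The result in short form. -/
theorem short (hT : Pool.Agent.H14.RG.T_TNG) (hE : T_THE) (hA : ∀ d : ℕ, 1 ≤ d → AllN d)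
    (n k m : ℕ) (hn : 1 ≤ n) (N : Set (E m)) (hN : IsClosedSubmanifold k N) (C : ℝ) :
    ∃ δ : ℝ, 0 < δ ∧ ∀ (A : E m → Bil m) (u : E n → E m) (G : E n → Lin n m), IsSecond N A →
      StatHarm N A u G → energy G ≤ C → ∃ H, IsHessian u H ∧ hessL1 H ≤ ENNReal.ofReal δ := by
  by_cases hex : ∃ A₀ : E m → Bil m, IsSecond N A₀
  · obtain ⟨A₀, hA₀⟩ := hex
    obtain ⟨δ, hδ0, hδ⟩ := hE hA n m k N A₀ hn hN hA₀.old C
    refine ⟨δ + 1, by linarith, fun A u G h0 h1 h2 => ?_⟩
    have hw := h1.old.w12.weak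
    obtain ⟨H, hH1, hH2, hH3⟩ := hδ u G (change_sff hT hN h0.old hA₀.old h1.old) h2
    refine ⟨H, ⟨hH1, fun i j φ hφ hc hs => ?_⟩,
      hH3.trans (ENNReal.ofReal_le_ofReal (by linarith))⟩
    have hsm : ContDiff ℝ ∞ (fun y => fderiv ℝ φ y (bv i)) :=
      (hφ.fderiv_right (m := ∞) (by norm_num)).clm_apply contDiff_const
    have hts : tsupport (fun y => fderiv ℝ φ y (bv i)) ⊆ tsupport φ := by
      refine closure_minimal ?_ (isClosed_tsupport φ)
      intro y hy
      refine (support_fderiv_subset ℝ (f := φ)) ?_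
      intro h0
      apply hy
      change fderiv ℝ φ y (bv i) = 0
      rw [h0]
      rfl
    have htest : IsTest (fun y => fderiv ℝ φ y (bv i)) :=
      ⟨hsm, hc.mono' (subset_closure.trans hts),
        hts.trans (hs.trans (ball_subset_ball (by norm_num)))⟩
    have h6 := hw _ htest (bv j)
    have h7 := hH2 i j φ hφ hc hs
    change ∫ x, (fderiv ℝ (fun y => fderiv ℝ φ y (bv i)) x (bv j)) • u x = _
    rw [h6, h7, neg_neg]
  · exact ⟨1, one_pos, fun A u G h0 _ _ => absurd ⟨A, h0⟩ hex⟩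

end

end Pool.Agent.H90.RG
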