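import Pool.Agent.H22.AN.Defs
import Pool.Agent.H80.AN.TargetsA

/-! Partial regularity of stationary harmonic maps and the Hessian bound in low dimensions
(MP_2697e3_an), parts F and G: dummy variables, zoom, gluing of local representatives, interface.
Page: LEAD_REG.md in the team store. -/

namespace Pool.Agent.H90.RG

open MeasureTheory Metric Set Filter Topology Pool.Agent.H87.SN
open scoped ContDiff RealInnerProductSpace ENNReal

noncomputable section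

/-! ### Definitions -/

/-- The point `c + r y`. -/
def zt {n : ℕ} (c : E n) (r : ℝ) (y : E n) : E n := c + r • y

/-- Zoom of the gradient. -/
def zg {n m : ℕ} (c : E n) (r : ℝ) (G : E n → E n →L[ℝ] E m) (y : E n) : E n →L[ℝ] E m :=
  r • G (zt c r y)

/-- Projection: forget the coordinate `x_0`. -/
def tl {n : ℕ} : E (n + 1) →L[ℝ] E n :=
  LinearMap.toContinuousLinearMap
    { toFun := fun x => WithLp.toLp 2 (fun i : Fin n => x i.succ)
      map_add' := fun _ _ => rfl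
      map_smul' := fun _ _ => rfl }

/-- The point with the coordinates `(t, y)`. -/
def cn {n : ℕ} (t : ℝ) (y : E n) : E (n + 1) := WithLp.toLp 2 (Fin.cons t (fun i => y i))

/-- The gradient of the map with a dummy variable. -/
def tg {n m : ℕ} (G : E n → E n →L[ℝ] E m) (x : E (n + 1)) : E (n + 1) →L[ℝ] E m :=
  (G (tl x)).comp tl

/-- The distributional Hessian of a map with gradient `G` is integrable on the ball of centre `c` and
radius `R`, with norm at most `δ`. -/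
def HB {n m : ℕ} (G : E n → E n →L[ℝ] E m) (c : E n) (R δ : ℝ) : Prop :=
  ∃ H : Fin n → Fin n → E n → E m,
    (∀ i j, IntegrableOn (H i j) (ball c R)) ∧
    (∀ (i j : Fin n) (φ : E n → ℝ), ContDiff ℝ ∞ φ → HasCompactSupport φ →
      tsupport φ ⊆ ball c R →
      ∫ x, (fderiv ℝ φ x (bv i)) • G x (bv j) = - ∫ x, φ x • H i j x) ∧
    ∫⁻ x in ball c R, ENNReal.ofReal (Real.sqrt (∑ i, ∑ j, ‖H i j x‖ ^ 2)) ≤ ENNReal.ofReal δ

/-- The Hessian bound in dimension `n` for the target `N`. -/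
def Q1 (n m : ℕ) (N : Set (E m)) (A : E m → E m →L[ℝ] E m →L[ℝ] E m) : Prop :=
  ∀ C : ℝ, ∃ δ : ℝ, 0 ≤ δ ∧ ∀ (u : E n → E m) (G : E n → E n →L[ℝ] E m),
    StationaryHarmonic N A u G → ∫ x in ball (0 : E n) 2, nsq (G x) ≤ C → HB G 0 1 δ

/-! ### Part F: dummy variables -/

/-- The coordinates `(t, y)`: algebra. -/
def T_CNA : Prop := ∀ n : ℕ,
    (∀ (t : ℝ) (y : E n), ‖cn t y‖ ^ 2 = t ^ 2 + ‖y‖ ^ 2 ∧ tl (cn t y) = y ∧ (cn t y) 0 = t ∧
      ∀ i : Fin n, (cn t y) i.succ = y i) ∧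
    (∀ x : E (n + 1), cn (x 0) (tl x) = x ∧ ‖tl x‖ ≤ ‖x‖) ∧
    (∀ (t : ℝ) (y : E n), cn t y = t • bv 0 + cn 0 y) ∧
    tl (bv (0 : Fin (n + 1))) = 0 ∧
    (∀ i : Fin n, tl (bv i.succ) = bv i ∧ cn 0 (bv i) = bv i.succ) ∧
    Continuous (fun p : ℝ × E n => cn p.1 p.2)

/-- The coordinates `(t, y)`: measure. -/
def T_CNM : Prop := ∀ n : ℕ,
    MeasurePreserving (fun p : ℝ × E n => cn p.1 p.2) (volume.prod volume) volume ∧
    MeasurableEmbedding (fun p : ℝ × E n => cn p.1 p.2)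

/-- Fubini. -/
def T_CNF : Prop := ∀ (n m : ℕ),
    (∀ f : E (n + 1) → E m, Integrable f →
      Integrable (fun y : E n => ∫ t, f (cn t y)) ∧ Integrable (fun t : ℝ => ∫ y : E n, f (cn t y)) ∧
      ∫ x, f x = ∫ y : E n, ∫ t, f (cn t y) ∧ ∫ x, f x = ∫ t, ∫ y : E n, f (cn t y)) ∧
    (∀ f : E (n + 1) → ℝ, Integrable f →
      Integrable (fun y : E n => ∫ t, f (cn t y)) ∧ Integrable (fun t : ℝ => ∫ y : E n, f (cn t y)) ∧
      ∫ x, f x = ∫ y : E n, ∫ t, f (cn t y) ∧ ∫ x, f x = ∫ t, ∫ y : E n, f (cn t y)) ∧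
    (∀ f : E (n + 1) → ℝ≥0∞, Measurable f →
      ∫⁻ x, f x = ∫⁻ y : E n, ∫⁻ t, f (cn t y))

/-- Slices of test functions. -/
def T_CNT : Prop := ∀ n : ℕ,
    (∀ φ : E (n + 1) → ℝ, IsTest φ →
      (∀ t : ℝ, IsTest (fun y : E n => φ (cn t y)) ∧
        ∀ y v : E n, fderiv ℝ (fun y => φ (cn t y)) y v = fderiv ℝ φ (cn t y) (cn 0 v)) ∧
      ∀ y : E n, ∫ t, fderiv ℝ φ (cn t y) (bv 0) = 0) ∧
    (∀ X : E (n + 1) → E (n + 1), IsTest X →
      (∀ t : ℝ, IsTest (fun y : E n => tl (X (cn t y))) ∧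
        ∀ y v : E n, fderiv ℝ (fun y => tl (X (cn t y))) y v = tl (fderiv ℝ X (cn t y) (cn 0 v))) ∧
      ∀ y : E n, ∫ t, (fderiv ℝ X (cn t y) (bv 0)) 0 = 0)

/-- Square integrability with a dummy variable. -/
def T_DML : Prop := ∀ (n m : ℕ) (u : E n → E m) (G : E n → E n →L[ℝ] E m),
    (MemLp u 2 (volume.restrict (ball (0 : E n) 2)) →
      MemLp (fun x => u (tl x)) 2 (volume.restrict (ball (0 : E (n + 1)) 2))) ∧
    (MemLp G 2 (volume.restrict (ball (0 : E n) 2)) →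
      MemLp (tg G) 2 (volume.restrict (ball (0 : E (n + 1)) 2)) ∧
      (∀ x, nsq (tg G x) = nsq (G (tl x))) ∧
      ∫ x in ball (0 : E (n + 1)) 2, nsq (tg G x) ≤ 4 * ∫ x in ball (0 : E n) 2, nsq (G x)) ∧
    (∀ P : E n → Prop, (∀ᵐ x ∂(volume.restrict (ball (0 : E n) 2)), P x) →
      ∀ᵐ x ∂(volume.restrict (ball (0 : E (n + 1)) 2)), P (tl x))

/-- The weak gradient with a dummy variable. -/
def T_DUW : Prop := ∀ (n m : ℕ) (u : E n → E m) (G : E n → E n →L[ℝ] E m), IsW12 u G →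
    IsW12 (fun x => u (tl x)) (tg G)

/-- The equation with a dummy variable. -/
def T_DUE : Prop := ∀ (n m : ℕ) (N : Set (E m)) (A : E m → E m →L[ℝ] E m →L[ℝ] E m)
    (u : E n → E m) (G : E n → E n →L[ℝ] E m), IsCompact N → ContinuousOn A N →
    StationaryHarmonic N A u G → ∀ φ : E (n + 1) → ℝ, IsTest φ →
    ∫ x, ∑ i : Fin (n + 1), (fderiv ℝ φ x (bv i)) • tg G x (bv i) =
      ∫ x, φ x • ∑ i : Fin (n + 1), A (u (tl x)) (tg G x (bv i)) (tg G x (bv i))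

/-- Stationarity with a dummy variable. -/
def T_DUS : Prop := ∀ (n m : ℕ) (G : E n → E n →L[ℝ] E m),
    MemLp G 2 (volume.restrict (ball (0 : E n) 2)) →
    (∀ X : E n → E n, IsTest X →
      ∫ x, (nsq (G x) * ∑ i : Fin n, (fderiv ℝ X x (bv i)) i
        - 2 * ∑ i : Fin n, ∑ j : Fin n, ⟪G x (bv i), G x (bv j)⟫ * (fderiv ℝ X x (bv i)) j) = 0) →
    ∀ X : E (n + 1) → E (n + 1), IsTest X →
      ∫ x, (nsq (tg G x) * ∑ i : Fin (n + 1), (fderiv ℝ X x (bv i)) i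
        - 2 * ∑ i : Fin (n + 1), ∑ j : Fin (n + 1),
          ⟪tg G x (bv i), tg G x (bv j)⟫ * (fderiv ℝ X x (bv i)) j) = 0

/-- Stationary harmonic maps with a dummy variable. -/
def T_DUM : Prop := ∀ (n m : ℕ) (N : Set (E m)) (A : E m → E m →L[ℝ] E m →L[ℝ] E m)
    (u : E n → E m) (G : E n → E n →L[ℝ] E m), IsCompact N → ContinuousOn A N →
    StationaryHarmonic N A u G →
    StationaryHarmonic N A (fun x => u (tl x)) (tg G)

/-- The Hessian with a dummy variable. -/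
def T_DUH : Prop := ∀ n : ℕ, ∃ K : ℝ, 0 ≤ K ∧ ∀ (m : ℕ) (G : E n → E n →L[ℝ] E m) (δ : ℝ),
    MemLp G 2 (volume.restrict (ball (0 : E n) 2)) → 0 ≤ δ → HB (tg G) 0 1 δ →
    HB G 0 (1 / 2) (K * δ)

/-- From small balls to the unit ball. -/
def T_LTG : Prop := ∀ (n : ℕ) (r : ℝ), 0 < r → ∃ K : ℝ, 0 ≤ K ∧
    ∀ (m : ℕ) (G : E n → E n →L[ℝ] E m) (δ : ℝ), 0 ≤ δ →
    MemLp G 2 (volume.restrict (ball (0 : E n) 2)) →
    (∀ c ∈ closedBall (0 : E n) 1, HB G c r δ) → HB G 0 1 (K * δ)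

/-- Reduction of the dimension. -/
def T_DIM : Prop := ∀ (n m : ℕ) (N : Set (E m)) (A : E m → E m →L[ℝ] E m →L[ℝ] E m), 1 ≤ n →
    IsCompact N → ContinuousOn A N → Q1 (n + 1) m N A → Q1 n m N A

/-! ### Part G: zoom, monotonicity, gluing -/

/-- Change of variables. -/
def T_ZCV : Prop := ∀ (n : ℕ) (c : E n) (r : ℝ), 0 < r →
    (∀ (F : Type) [NormedAddCommGroup F] [NormedSpace ℝ F] (f : E n → F) (S : Set (E n)),
      MeasurableSet S → ∫ y in zt c r ⁻¹' S, f (zt c r y) = (r ^ n)⁻¹ • ∫ x in S, f x) ∧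
    (∀ (f : E n → ℝ≥0∞) (S : Set (E n)), MeasurableSet S →
      ∫⁻ y in zt c r ⁻¹' S, f (zt c r y) = ENNReal.ofReal ((r ^ n)⁻¹) * ∫⁻ x in S, f x) ∧
    (∀ (y : E n) (s : ℝ), zt c r ⁻¹' ball (zt c r y) (r * s) = ball y s) ∧
    (∀ (F : Type) [NormedAddCommGroup F] [NormedSpace ℝ F] (f : E n → F) (S : Set (E n)),
      MeasurableSet S → (MemLp f 2 (volume.restrict S) →
        MemLp (fun y => f (zt c r y)) 2 (volume.restrict (zt c r ⁻¹' S))) ∧
      (IntegrableOn f S ↔ IntegrableOn (fun y => f (zt c r y)) (zt c r ⁻¹' S))) ∧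
    (∀ (P : E n → Prop) (S : Set (E n)), MeasurableSet S →
      ((∀ᵐ x ∂(volume.restrict S), P x) ↔
        ∀ᵐ y ∂(volume.restrict (zt c r ⁻¹' S)), P (zt c r y)))

/-- Zoom of stationary harmonic maps. -/
def T_ZSH : Prop := ∀ (n m : ℕ) (N : Set (E m)) (A : E m → E m →L[ℝ] E m →L[ℝ] E m)
    (u : E n → E m) (G : E n → E n →L[ℝ] E m), StationaryHarmonic N A u G →
    ∀ (c : E n) (r : ℝ), 0 < r → ball c (2 * r) ⊆ ball 0 2 →
    StationaryHarmonic N A (fun y => u (zt c r y)) (zg c r G) ∧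
    ∀ (y : E n) (s : ℝ),
      r ^ n * ∫ x in ball y s, nsq (zg c r G x) = r ^ 2 * ∫ x in ball (zt c r y) (r * s), nsq (G x)

/-- Zoom of the Hessian bound. -/
def T_ZHB : Prop := ∀ (n m : ℕ) (G : E n → E n →L[ℝ] E m) (c : E n) (r R δ : ℝ), 0 < r → r ≤ 1 →
    0 ≤ δ → HB (zg c r G) 0 R δ → HB G c (r * R) ((r ^ 2)⁻¹ * δ)

/-- Replacement of the map by a map which is equal to it almost everywhere. -/
def T_SHE : Prop := ∀ (n m : ℕ) (N : Set (E m)) (A : E m → E m →L[ℝ] E m →L[ℝ] E m)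
    (u u' : E n → E m) (G : E n → E n →L[ℝ] E m), StationaryHarmonic N A u G →
    (∀ᵐ x ∂(volume.restrict (ball (0 : E n) 2)), u' x = u x) → StationaryHarmonic N A u' G

/-- The regular set: points near which the map is equal almost everywhere to a smooth map. -/
def Reg {n m : ℕ} (u : E n → E m) : Set (E n) :=
  {x | ∃ r : ℝ, 0 < r ∧ ball x r ⊆ ball 0 2 ∧ ∃ v : E n → E m, ContDiffOn ℝ ∞ v (ball x r) ∧
    ∀ᵐ y ∂(volume.restrict (ball x r)), v y = u y}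

/-- Gluing of the local representatives. -/
def T_GLU : Prop := ∀ (n m : ℕ) (u : E n → E m), IsOpen (Reg u) ∧ Reg u ⊆ ball 0 2 ∧
    ∃ u' : E n → E m, ContDiffOn ℝ ∞ u' (Reg u) ∧ ∀ᵐ x, u' x = u x

/-- Small energy on one ball gives small energy on all smaller balls. -/
def T_MNS : Prop := ∀ (d m : ℕ) (G : E (d + 2) → E (d + 2) →L[ℝ] E m),
    MemLp G 2 (volume.restrict (ball (0 : E (d + 2)) 2)) → Stat1 G → ∀ (x : E (d + 2)) (R : ℝ),
    0 < R → ball x (2 * R) ⊆ ball 0 2 → ∀ (y : E (d + 2)) (s : ℝ), 0 < s → ball y s ⊆ ball x R →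
    R ^ d * ∫ z in ball y s, nsq (G z) ≤ s ^ d * ∫ z in ball x (2 * R), nsq (G z)

/-- Regularity for small energy, with constant `ε`. -/
def EpsReg (n m : ℕ) (N : Set (E m)) (A : E m → E m →L[ℝ] E m →L[ℝ] E m) (ε : ℝ) : Prop :=
  ∀ (u : E n → E m) (G : E n → E n →L[ℝ] E m), StationaryHarmonic N A u G →
    ∫ x in ball (0 : E n) 2, nsq (G x) < ε → (0 : E n) ∈ Reg u

/-- Partial regularity from regularity for small energy. -/
def T_PRG : Prop := ∀ (d m : ℕ) (N : Set (E m)) (A : E m → E m →L[ℝ] E m →L[ℝ] E m) (ε : ℝ),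
    0 < ε → EpsReg (d + 2) m N A ε → ∀ (u : E (d + 2) → E m)
    (G : E (d + 2) → E (d + 2) →L[ℝ] E m), StationaryHarmonic N A u G →
    ∃ (U : Set (E (d + 2))) (u' : E (d + 2) → E m), IsOpen U ∧ U ⊆ ball 0 2 ∧
      ContDiffOn ℝ ∞ u' U ∧ (∀ᵐ x, u' x = u x) ∧
      ∀ x ∈ ball (0 : E (d + 2)) 2, x ∉ U → ∀ r : ℝ, 0 < r → ball x r ⊆ ball 0 2 →
        ε / 2 ^ d * r ^ d ≤ ∫ y in ball x r, nsq (G y)

/-- The theorem for maps which are regular off a set of large density, in dimension `d + 2`. -/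
def AllN (d : ℕ) : Prop := ∀ (m : ℕ) (N : Set (E m)) (A : E m → E m →L[ℝ] E m →L[ℝ] E m) (ε C : ℝ),
    IsCompact N → IsSFF N A → 0 < ε → ∃ δ : ℝ, 0 ≤ δ ∧
    ∀ (U : Set (E (d + 2))) (u : E (d + 2) → E m) (G : E (d + 2) → E (d + 2) →L[ℝ] E m),
    StationaryHarmonic N A u G → IsOpen U → U ⊆ ball 0 2 → ContDiffOn ℝ ∞ u U →
    (∀ x ∈ ball (0 : E (d + 2)) 2, x ∉ U → ∀ r : ℝ, 0 < r → ball x r ⊆ ball 0 2 →
      ε * r ^ d ≤ ∫ y in ball x r, nsq (G y)) →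
    ∫ x in ball (0 : E (d + 2)) 2, nsq (G x) ≤ C → HB G 0 1 δ

/-- The Hessian bound in dimension at least three, from partial regularity. -/
def T_FN3 : Prop := ∀ (d m : ℕ) (N : Set (E m)) (A : E m → E m →L[ℝ] E m →L[ℝ] E m) (ε : ℝ),
    IsCompact N → IsSFF N A → 0 < ε → EpsReg (d + 2) m N A ε → AllN d → Q1 (d + 2) m N A

/-- The Hessian bound in all dimensions. -/
def T_FNA : Prop := ∀ (m : ℕ) (N : Set (E m)) (A : E m → E m →L[ℝ] E m →L[ℝ] E m),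
    IsCompact N → IsSFF N A → (∀ d : ℕ, 1 ≤ d → ∃ ε : ℝ, 0 < ε ∧ EpsReg (d + 2) m N A ε) →
    (∀ d : ℕ, 1 ≤ d → AllN d) → ∀ n : ℕ, 1 ≤ n → Q1 n m N A

end

end Pool.Agent.H90.RG
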