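import Pool.Agent.H90.RG.Stmt
import Pool.Agent.H14.RG.AEX
import Pool.Agent.H3.RG.OutX
import Pool.Agent.H39.RG.MIN30
import Pool.Agent.H48.RG.WWP
import Pool.Agent.H48.RG.SCL
import Pool.Agent.H87.AN.TargetsC

/-! The Hessian bound for stationary harmonic maps (MP_2697e3_an): assembly, with the theorem for maps with
a regular set as hypothesis. -/

namespace Pool.Agent.H90.RG

open MeasureTheory Metric Set Filter Topology Pool.Agent.H87.SN
open Pool.Agent.H14.RG (IsClosedSubmanifold)
open scoped ContDiff RealInnerProductSpace ENNReal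

/-- The second fundamental form exists. -/
theorem exists_second {m k : ℕ} {N : Set (E m)} (hN : IsClosedSubmanifold k N) :
    ∃ A : E m → Bil m, IsSecond N A := by
  obtain ⟨A, hA, -⟩ := Pool.Agent.H14.RG.aex m k N hN
  refine ⟨A, fun v w => ?_, fun q hq v w hv hw τ hτ => hA.normal q hq v w τ hv hw hτ,
    fun γ h1 h2 ν hν => hA.curve γ h1 h2 ν hν⟩
  exact (hA.continuousOn.clm_apply continuousOn_const).clm_apply continuousOn_const

/-- The theorem `T_THE`, without hypotheses. -/
theorem the : T_THE :=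
  Pool.Agent.H3.RG.xTHE Pool.Agent.H39.RG.pf_MIN30 Pool.Agent.H48.RG.pf_WWP
    Pool.Agent.H48.RG.pf_SCL

/-- The result, from the theorem for maps with a regular set. -/
theorem res_of (hALL : Pool.Agent.H22.AN.T_ALL) (n k m : ℕ) (hn : 1 ≤ n) (N : Set (E m))
    (hN : IsClosedSubmanifold k N) :
    (∃ A : E m → Bil m, IsSecond N A) ∧ ∀ C : ℝ,
    ∃ δ : ℝ, 0 < δ ∧ ∀ (A : E m → Bil m) (u : E n → E m) (G : E n → Lin n m), IsSecond N A →
      StatHarm N A u G → energy G ≤ C → ∃ H, IsHessian u H ∧ hessL1 H ≤ ENNReal.ofReal δ :=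
  ⟨exists_second hN, fun C => short Pool.Agent.H14.RG.tng the
    (fun d hd m N A ε C hN hA hε => hALL d m N A ε C hd hN hA hε) n k m hn N hN C⟩

end Pool.Agent.H90.RG
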